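import Pool.Agent.Mg.Fdbdb85.Ge8bddf

namespace Pool.Agent.Results.MP_dbdb85_co.Dip

open Pool.Agent.MP_dbdb85_co

/-- A dip of the sequence `l₂(n, ·)` can only occur at a position of exact order `√n log n`. -/
theorem result : ∃ c : ℝ, 0 < c ∧ ∀ n Δ₁ Δ₂ Δ₃ : ℕ, Δ₁ < Δ₂ → Δ₂ < Δ₃ → l2 n Δ₂ < l2 n Δ₁ →
    l2 n Δ₂ < l2 n Δ₃ →
    c * √(n : ℝ) * Real.log n < Δ₂ ∧ (Δ₂ : ℝ) < 1000 * √(n : ℝ) * Real.log n :=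
  L.dip_all

end Pool.Agent.Results.MP_dbdb85_co.Dip
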