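import Pool.Agent.Mg.Fdbdb85.G32a2d7

namespace Pool.Agent.Results.MP_dbdb85_co.Peak

open Pool.Agent.MP_dbdb85_co

/-- Every maximiser of `l₂(n, ·)` has order `√n log n`. -/
theorem result : ∃ n₀ : ℕ, ∀ n ≥ n₀, Even n → ∀ Δ : ℕ, (∀ Δ' : ℕ, l2 n Δ' ≤ l2 n Δ) →
    √(n : ℝ) * Real.log n / 200 < Δ ∧ (Δ : ℝ) < 1000 * √(n : ℝ) * Real.log n + 1 :=
  peak_all

end Pool.Agent.Results.MP_dbdb85_co.Peak
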