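import Pool.Agent.Mg.Fdbdb85.G32a2d7

namespace Pool.Agent.Results.MP_dbdb85_co.RightTail

open Pool.Agent.MP_dbdb85_co

/-- From `1000 √n log n` on, the sequence `l₂(n, ·)` decreases strictly until it vanishes. -/
theorem result (n Δ : ℕ) (h : 1000 * √(n : ℝ) * Real.log n ≤ Δ) :
    l2 n (Δ + 1) = 0 ∨ l2 n (Δ + 1) < l2 n Δ :=
  (Nat.eq_zero_or_pos _).imp id (tail_all h)

end Pool.Agent.Results.MP_dbdb85_co.RightTail
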