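import Pool.Agent.Mg.Fdbdb85.G32a2d7

namespace Pool.Agent.Results.MP_dbdb85_co.Support

open Pool.Agent.MP_dbdb85_co

/-- The non-zero terms of `l₂(n, ·)` form an interval that ends at `⌊(n + 2) / 4⌋`. -/
theorem result (n a Δ : ℕ) (ha : 0 < l2 n a) (h : a ≤ Δ) : 0 < l2 n Δ ↔ 4 * Δ ≤ n + 2 :=
  support_all ha h

end Pool.Agent.Results.MP_dbdb85_co.Support
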